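import Pool.Agent.P.MP_6b6f6e_co.Two

/-!
The case `s = 2`: `F(m,2) ~ m^2 / 2` as `m → ∞`, so the counting bound `C(m+2,2)` is
asymptotically sharp.
-/

namespace Pool.Agent.Results.MP_6b6f6e_co.DiamTwo

open Pool.Agent.P.MP_6b6f6e_co.Two Filter Topology

/-- `A` is an `s`-basis of `G`: every element is a combination of elements of `A` with
nonnegative integer coefficients of total at most `s`. -/
def IsBasis {G : Type} [AddCommGroup G] (s : ℕ) (A : Finset G) : Prop :=
  ∀ g : G, ∃ l : G → ℕ, ∑ a ∈ A, l a ≤ s ∧ ∑ a ∈ A, l a • a = g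

/-- Some finite abelian group of order `n` has an `s`-basis with at most `m` elements. -/
def Adm (m s n : ℕ) : Prop :=
  ∃ (G : Type) (_ : AddCommGroup G) (_ : Finite G) (A : Finset G),
    Nat.card G = n ∧ A.card ≤ m ∧ IsBasis s A

/-- The largest order of a finite abelian group with an `s`-basis of at most `m` elements. -/
noncomputable def F (m s : ℕ) : ℕ := sSup {n | Adm m s n}

theorem upper {m n : ℕ} (h : Adm m 2 n) : n ≤ (m + 2).choose 2 := by
  obtain ⟨G, _, _, A, rfl, hA, hb⟩ := h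
  exact (count A hb).trans (Nat.choose_le_choose 2 (by omega))

theorem bdd (m : ℕ) : BddAbove {n | Adm m 2 n} := ⟨_, fun _ hn => upper hn⟩

theorem F_le (m : ℕ) : (F m 2 : ℝ) ≤ (m + 2) * (m + 1) / 2 := by
  have h : F m 2 ≤ (m + 2).choose 2 := csSup_le' fun _ hn => upper hn
  have h2 : (F m 2 : ℝ) ≤ ((m + 2).choose 2 : ℕ) := by exact_mod_cast h
  rw [Nat.cast_choose_two] at h2
  push_cast at h2
  linarith

theorem le_F (j m t : ℕ) {n : ℕ} (hn : n = 4 * (2 ^ j) ^ 2 + 5 * 2 ^ j)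
    (hm : n * (t * n.factorial + 1) ≤ m) :
    8 * (2 ^ j) ^ 4 * (t * n.factorial + 1) ^ 2 ≤ F m 2 := by
  subst hn
  obtain ⟨K, _, _, k, hK, hk⟩ := strict j
  obtain ⟨A, hA, h⟩ := blow k hk t
  refine le_csSup (bdd m) ⟨_, inferInstance, inferInstance, A, ?_, hA.trans hm, fun g => ?_⟩
  · rw [Nat.card_prod, Nat.card_prod, hK, Nat.card_zmod]; ring
  · obtain ⟨a, ha, b, hb, rfl⟩ := h g
    exact coef ha hb

theorem result : Tendsto (fun m : ℕ => (F m 2 : ℝ) / (m : ℝ) ^ 2) atTop (𝓝 (1 / 2)) := by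
  have hinv : Tendsto (fun m : ℕ => ((m : ℝ))⁻¹) atTop (𝓝 0) := tendsto_inv_atTop_nhds_zero_nat
  refine tendsto_order.2 ⟨fun c hc => ?_, fun c hc => ?_⟩
  · have h1 : Tendsto (fun j : ℕ => (8 : ℝ) / (4 + 5 * (1 / 2) ^ j) ^ 2) atTop
        (𝓝 (8 / (4 + 5 * 0) ^ 2)) :=
      tendsto_const_nhds.div ((tendsto_const_nhds.add ((tendsto_pow_atTop_nhds_zero_of_lt_one
        (by norm_num) (by norm_num)).const_mul 5)).pow 2) (by norm_num)
    obtain ⟨j, hj⟩ := (h1.eventually (lt_mem_nhds (by linarith : c < 8 / (4 + 5 * 0) ^ 2))).exists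
    set n : ℕ := 4 * (2 ^ j) ^ 2 + 5 * 2 ^ j with hn
    have hn0 : 0 < n := by positivity
    have hn0' : (0 : ℝ) < n := by exact_mod_cast hn0
    have e : (8 : ℝ) / (4 + 5 * (1 / 2) ^ j) ^ 2
        = 8 * (2 ^ j) ^ 4 * ((n : ℝ)⁻¹ - n.factorial * 0) ^ 2 := by
      rw [hn, one_div, inv_pow]; push_cast; field_simp; ring
    have h2 : Tendsto (fun m : ℕ => (n : ℝ)⁻¹ - n.factorial * (m : ℝ)⁻¹) atTop
        (𝓝 ((n : ℝ)⁻¹ - n.factorial * 0)) := tendsto_const_nhds.sub (hinv.const_mul _)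
    have h3 := (h2.pow 2).const_mul (8 * (2 ^ j) ^ 4 : ℝ)
    filter_upwards [h3.eventually (lt_mem_nhds (e ▸ hj)),
      h2.eventually (lt_mem_nhds (a := 0) (by simpa using hn0)), eventually_ge_atTop n] with m m1 m2 m3
    have hm0 : (0 : ℝ) < m := by exact_mod_cast hn0.trans_le m3
    have hf := n.factorial_pos
    set t := (m - n) / (n * n.factorial) with ht
    have t1 : n * n.factorial * t ≤ m - n := Nat.mul_div_le _ _
    have t2 : m - n < n * n.factorial * (t + 1) := Nat.lt_mul_div_succ _ (by positivity)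
    have t3 : n * (t * n.factorial + 1) ≤ m := by
      have : n * (t * n.factorial + 1) = n * n.factorial * t + n := by ring
      omega
    have t4 : m ≤ n * (t * n.factorial + 1) + n * n.factorial := by
      have : n * (t * n.factorial + 1) + n * n.factorial = n * n.factorial * (t + 1) + n := by ring
      omega
    have t5 : (m : ℝ) ≤ n * (t * n.factorial + 1) + n * n.factorial := by exact_mod_cast t4
    have t6 : (8 * (2 ^ j) ^ 4 * (t * n.factorial + 1) ^ 2 : ℝ) ≤ F m 2 := by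
      exact_mod_cast le_F j m t hn t3
    have t7 : (n : ℝ)⁻¹ - n.factorial * (m : ℝ)⁻¹ ≤ (t * n.factorial + 1) / m := by
      rw [le_div_iff₀ hm0]
      have : ((n : ℝ)⁻¹ - n.factorial * (m : ℝ)⁻¹) * m = m / n - n.factorial := by field_simp
      rw [this, sub_le_iff_le_add, div_le_iff₀ hn0']
      linarith
    refine m1.trans_le ?_
    calc _ ≤ 8 * (2 ^ j) ^ 4 * ((t * n.factorial + 1 : ℝ) / m) ^ 2 := by gcongr
      _ = 8 * (2 ^ j) ^ 4 * (t * n.factorial + 1 : ℝ) ^ 2 / (m : ℝ) ^ 2 := by ring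
      _ ≤ _ := by gcongr
  · have h1 : Tendsto (fun m : ℕ => (1 + 2 * (m : ℝ)⁻¹) * (1 + (m : ℝ)⁻¹) / 2) atTop
        (𝓝 ((1 + 2 * 0) * (1 + 0) / 2)) :=
      ((tendsto_const_nhds.add (hinv.const_mul 2)).mul (tendsto_const_nhds.add hinv)).div_const 2
    filter_upwards [h1.eventually (gt_mem_nhds (by linarith : (1 + 2 * 0) * (1 + 0) / 2 < c)),
      eventually_gt_atTop 0] with m m1 m2
    have hm0 : (0 : ℝ) < m := by exact_mod_cast m2
    refine lt_of_le_of_lt ?_ m1
    rw [div_le_iff₀ (by positivity)]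
    refine (F_le m).trans (le_of_eq ?_)
    field_simp

end Pool.Agent.Results.MP_6b6f6e_co.DiamTwo
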