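import Pool.Agent.P.MP_6b6f6e_co.Ord.Final
import Pool.Agent.P.MP_6b6f6e_co.Ord.Upper

/-!
A lower bound for `F(m,s)` valid uniformly in both parameters: the counting bound `C(m+s,m)` is
attained up to the factor `k (2 + log k)^C`, where `k = min m s`.
-/

namespace Pool.Agent.Results.MP_6b6f6e_co.Lower

open Pool.Agent.P.MP_6b6f6e_co.Ord

/-- `A` is an `s`-basis of `G`: every element is a combination of elements of `A` with
nonnegative integer coefficients of total at most `s`. -/
def IsBasis {G : Type} [AddCommGroup G] (s : ℕ) (A : Finset G) : Prop :=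
  ∀ g : G, ∃ l : G → ℕ, ∑ a ∈ A, l a ≤ s ∧ ∑ a ∈ A, l a • a = g

/-- Some finite abelian group of order `n` has an `s`-basis with at most `m` elements. -/
def Adm (m s n : ℕ) : Prop :=
  ∃ (G : Type) (_ : AddCommGroup G) (_ : Finite G) (A : Finset G),
    Nat.card G = n ∧ A.card ≤ m ∧ IsBasis s A

/-- The largest order of a finite abelian group with an `s`-basis of at most `m` elements. -/
noncomputable def F (m s : ℕ) : ℕ := sSup {n | Adm m s n}

theorem le_F {m s n : ℕ} (h : Cov m s n) : n ≤ F m s := by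
  obtain ⟨G, _, _, A, h1, h2, h3⟩ := h.toSet
  refine h1.trans (le_csSup (s := {n | Adm m s n}) ⟨(m + s).choose m, ?_⟩
    ⟨G, inferInstance, inferInstance, A, rfl, h2, h3⟩)
  rintro n ⟨G, _, _, A, rfl, hA, hb⟩
  obtain ⟨a, ha⟩ := homog A hA hb
  exact count_level a ha

theorem result : ∃ C : ℕ, ∀ m s : ℕ, 1 ≤ m → 1 ≤ s →
    ((m + s).choose m : ℝ) ≤ (min m s : ℕ) * (2 + Real.log (min m s : ℕ)) ^ C * F m s := by
  obtain ⟨C, hC⟩ := uniform
  refine ⟨C, fun m s hm hs => ?_⟩
  obtain ⟨n, h1, h2⟩ := hC m s hm hs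
  have h3 : (n : ℝ) ≤ F m s := by exact_mod_cast le_F h1
  have h4 := Real.log_nonneg (show (1 : ℝ) ≤ (min m s : ℕ) by exact_mod_cast le_min hm hs)
  exact h2.trans (mul_le_mul_of_nonneg_left h3 (by positivity))

end Pool.Agent.Results.MP_6b6f6e_co.Lower
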