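import Pool.Agent.P.MP_6b6f6e_co.Conc
import Pool.Agent.P.MP_6b6f6e_co.Lower
import Pool.Agent.P.MP_6b6f6e_co.Glue

/-!
The sharp cubic upper bound for abelian groups with an `s`-basis of three elements:
`F(3,s) ≤ (21/250) (s+3)^3`, with equality exactly when `s ≡ 7 (mod 10)`; thus
`F(3, 10k-3) = 84 k^3`.
-/

namespace Pool.Agent.Results.MP_6b6f6e_co.Sharp3

open Pool.Agent.P.MP_6b6f6e_co

/-- `A` is an `s`-basis of `G`: every element is a combination of elements of `A` with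
nonnegative integer coefficients of total at most `s`. -/
def IsBasis {G : Type} [AddCommGroup G] (s : ℕ) (A : Finset G) : Prop :=
  ∀ g : G, ∃ l : G → ℕ, ∑ a ∈ A, l a ≤ s ∧ ∑ a ∈ A, l a • a = g

/-- Some finite abelian group of order `n` has an `s`-basis with at most `m` elements. -/
def Adm (m s n : ℕ) : Prop :=
  ∃ (G : Type) (_ : AddCommGroup G) (_ : Finite G) (A : Finset G),
    Nat.card G = n ∧ A.card ≤ m ∧ IsBasis s A

/-- The largest order of a finite abelian group with an `s`-basis of at most `m` elements. -/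
noncomputable def F (m s : ℕ) : ℕ := sSup {n | Adm m s n}

theorem upper {s n : ℕ} (h : Adm 3 s n) : 250 * n ≤ 21 * (s + 3) ^ 3 := by
  obtain ⟨G, _, _, A, rfl, hA, hb⟩ := h
  by_contra c
  obtain ⟨f, hf⟩ := triple_of_set A hA
  obtain ⟨M⟩ := model_of_group f s (fun g => by
    obtain ⟨l, h1, h2⟩ := hb g
    obtain ⟨l', e1, e2⟩ := hf l
    exact ⟨l', e1 ▸ h1, e2.trans h2⟩) (not_le.1 c)
  exact unsat_all M.D M.hD1 M.hD2 _ M rfl

theorem adm_lower {k s : ℕ} (hk : 1 ≤ k) (hs : s + 3 = 10 * k) : Adm 3 s (84 * k ^ 3) := by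
  have : NeZero k := ⟨by omega⟩
  have : NeZero (84 * k) := ⟨by omega⟩
  obtain ⟨A, hA, h⟩ := set_of_triple
    (![(0, 1, 2), (0, 4, 9), (1, 0, 35)] : Fin 3 → ZMod k × ZMod k × ZMod (84 * k))
  refine ⟨_, inferInstance, inferInstance, A, card_lower k, hA, fun g => ?_⟩
  obtain ⟨l, h1, h2⟩ := lower k hk g
  obtain ⟨l', e1, e2⟩ := h l
  exact ⟨l', by omega, e2.trans h2⟩

theorem result (s : ℕ) :
    250 * F 3 s ≤ 21 * (s + 3) ^ 3 ∧ (250 * F 3 s = 21 * (s + 3) ^ 3 ↔ s % 10 = 7) := by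
  have hb : BddAbove {n | Adm 3 s n} :=
    ⟨21 * (s + 3) ^ 3, fun n hn => by have := upper hn; omega⟩
  have hne : {n | Adm 3 s n}.Nonempty :=
    ⟨1, PUnit, inferInstance, inferInstance, ∅, by simp, by simp, fun g => ⟨0, by simp, rfl⟩⟩
  have hu : 250 * F 3 s ≤ 21 * (s + 3) ^ 3 := upper (Nat.sSup_mem hne hb)
  refine ⟨hu, fun h => ?_, fun h => le_antisymm hu ?_⟩
  · have h1 : 10 ∣ 21 * (s + 3) ^ 3 := ⟨25 * F 3 s, by omega⟩
    have h2 : 10 ∣ (s + 3) ^ 3 := (Nat.Coprime.dvd_mul_left (by norm_num)).1 h1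
    have h3 : 2 ∣ s + 3 := Nat.prime_two.dvd_of_dvd_pow (Dvd.dvd.trans (by norm_num) h2)
    have h4 : 5 ∣ s + 3 := Nat.prime_five.dvd_of_dvd_pow (Dvd.dvd.trans (by norm_num) h2)
    omega
  · obtain ⟨k, hk⟩ : ∃ k, s + 3 = 10 * k := ⟨(s + 3) / 10, by omega⟩
    have h1 : 84 * k ^ 3 ≤ F 3 s := le_csSup hb (adm_lower (by omega) hk)
    rw [hk, mul_pow]
    omega

end Pool.Agent.Results.MP_6b6f6e_co.Sharp3
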