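import Pool.Agent.P.MP_6b6f6e_co.Ord.Upper

/-!
An upper bound for `F(m,s)` that beats the counting bound by a factor of order `min (m, s / m)`:
`F(m,s) ≤ (1 + 1/m)^m (m/s + 1/(m+1)) C(m+s,m)`.
-/

namespace Pool.Agent.Results.MP_6b6f6e_co.Upper

open Pool.Agent.P.MP_6b6f6e_co.Ord

/-- `A` is an `s`-basis of `G`: every element is a combination of elements of `A` with
nonnegative integer coefficients of total at most `s`. -/
def IsBasis {G : Type} [AddCommGroup G] (s : ℕ) (A : Finset G) : Prop :=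
  ∀ g : G, ∃ l : G → ℕ, ∑ a ∈ A, l a ≤ s ∧ ∑ a ∈ A, l a • a = g

/-- Some finite abelian group of order `n` has an `s`-basis with at most `m` elements. -/
def Adm (m s n : ℕ) : Prop :=
  ∃ (G : Type) (_ : AddCommGroup G) (_ : Finite G) (A : Finset G),
    Nat.card G = n ∧ A.card ≤ m ∧ IsBasis s A

/-- The largest order of a finite abelian group with an `s`-basis of at most `m` elements. -/
noncomputable def F (m s : ℕ) : ℕ := sSup {n | Adm m s n}

theorem adm_F (m s : ℕ) : Adm m s (F m s) := by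
  refine Nat.sSup_mem (s := {n | Adm m s n})
    ⟨1, PUnit, inferInstance, inferInstance, ∅, by simp, by simp, fun g => ⟨0, by simp, rfl⟩⟩
    ⟨(m + s).choose m, ?_⟩
  rintro n ⟨G, _, _, A, rfl, hA, hb⟩
  obtain ⟨a, ha⟩ := homog A hA hb
  exact count_level a ha

theorem result (m s : ℕ) (hm : 1 ≤ m) :
    m ^ m * s * F m s ≤ (m + 1) ^ (m - 1) * (s + m ^ 2 + m) * (m + s).choose m := by
  obtain ⟨G, _, _, A, hG, hA, hb⟩ := adm_F m s
  obtain ⟨a, ha⟩ := homog A hA hb
  exact hG ▸ upper_closed hm a ha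

end Pool.Agent.Results.MP_6b6f6e_co.Upper
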